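import Pool.Agent.Q280.AD.Main

set_option autoImplicit false

/-!
# Average degree of the irreducible factors of iterated rational transforms

Definitions are in `Pool.Agent.Q280.AD.Def`.

Idea of the proof. Let `d` be the degree of the `p`-reduction of `R`. By counting ramification
with the Wronskian, a set of `s` points has at least `d s - 3 d` preimages in the affine line over
the algebraic closure; so the numbers of roots grow exponentially as soon as they are larger than
`6` once (`d ≥ 2` if there is a noncritical point, since the `p`-reduction is otherwise a Möbius
transformation). Only `q ^ k` monic polynomials have a degree less than `k`, so the average degree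
of the distinct factors is at least `k / 2` as soon as `k q ^ k` is at most the number of roots,
which allows `k` proportional to `n`.
-/

namespace Pool.Agent.Results.MP_fa793f_nt.LinearAverage

open Polynomial Filter Q280.AD

/-- Let `F` be a finite field, `R` a rational function of degree at least one over `F`, `f` a
polynomial of positive degree, and `α` a root of `f` in the algebraic closure which is not
`R`-critical.

(1) The average degree of the distinct irreducible factors of the `R^{(n)}`-transform of `f`
(whose roots are the solutions `x` of `f (R^{(n)} (x)) = 0`) is at least `c n` for all large `n`,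
with a constant `c > 0`.

(2) If no iterate `R^{(m)}` takes the value `α` at infinity, in particular if `α` is not in `F`,
then the average degree of the distinct irreducible factors of the iterated transform `f_R^{(n)}`
is at least `c n` for all large `n`, with a constant `c > 0`.

(3) In all cases either the degrees of the squarefree parts of the `f_R^{(n)}` are bounded or
their average is at least `c n` for all large `n`, with a constant `c > 0`. -/
theorem result {F : Type} [Field F] [Finite F] (R : RatFunc F)
    (hR : 1 ≤ max R.num.natDegree R.denom.natDegree) (f : F[X]) (hf : 0 < f.natDegree)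
    (α : AlgebraicClosure F) (hα : aeval α f = 0) (hcrit : ¬ IsCritical R α) :
    (∃ c : ℝ, 0 < c ∧ ∀ᶠ n : ℕ in atTop, c * n ≤ averageDegree (transform (iter R n) f)) ∧
    ((∀ m, ¬ TakesAtInfinity (iter R m) α) →
      ∃ c : ℝ, 0 < c ∧ ∀ᶠ n : ℕ in atTop, c * n ≤ averageDegree (transforms R f n)) ∧
    ((∀ a : F, algebraMap F (AlgebraicClosure F) a ≠ α) →
      ∃ c : ℝ, 0 < c ∧ ∀ᶠ n : ℕ in atTop, c * n ≤ averageDegree (transforms R f n)) ∧
    ((∃ B : ℕ, ∀ n, delta (transforms R f n) ≤ B) ∨
      ∃ c : ℝ, 0 < c ∧ ∀ᶠ n : ℕ in atTop, c * n ≤ averageDegree (transforms R f n)) := by
  classical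
  have hf0 : f ≠ 0 := by
    rintro rfl
    simp at hf
  refine ⟨composition_growth hR hf0 hα hcrit, fun h => iterated_growth hR hf0 hα hcrit h,
    fun h => iterated_growth hR hf0 hα hcrit fun m hm => h _ hm.2,
    dichotomy (AlgebraicClosure F) hR hf0⟩

end Pool.Agent.Results.MP_fa793f_nt.LinearAverage
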